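import Pool.Agent.W438.RA.Defs2

/-!
# RA-GRAM: Gram matrix of a right-angled polytope
-/

set_option autoImplicit false
set_option linter.all false

open MeasureTheory Set Filter Topology

namespace Pool.Agent.W337.RA

open Pool.Agent.W575.Hyp6
open Pool.Agent.W438.RA

/-- normalise a future time-like vector -/
lemma exists_pt (X : Fin 7 → ℝ) (hX : B X X < 0) (h0 : 0 < X 0) :
    ∃ (Y : H6) (c : ℝ), 0 < c ∧ Y.1 = c • X := by
  have hs : 0 < Real.sqrt (-B X X) := Real.sqrt_pos.2 (by linarith)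
  have hsq : Real.sqrt (-B X X) * Real.sqrt (-B X X) = -B X X :=
    Real.mul_self_sqrt (by linarith)
  refine ⟨⟨(Real.sqrt (-B X X))⁻¹ • X, ?_, ?_⟩, (Real.sqrt (-B X X))⁻¹, inv_pos.2 hs, rfl⟩
  · rw [B_smul_left, B_smul_right]
    have hne : Real.sqrt (-B X X) ≠ 0 := hs.ne'
    have : B X X = -(Real.sqrt (-B X X) * Real.sqrt (-B X X)) := by rw [hsq]; ring
    calc (Real.sqrt (-B X X))⁻¹ * ((Real.sqrt (-B X X))⁻¹ * B X X)
        = (Real.sqrt (-B X X))⁻¹ * ((Real.sqrt (-B X X))⁻¹ *
          (-(Real.sqrt (-B X X) * Real.sqrt (-B X X)))) := by rw [← this]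
      _ = -1 := by field_simp
  · show 0 < ((Real.sqrt (-B X X))⁻¹ • X) 0
    rw [Pi.smul_apply, smul_eq_mul]
    positivity

/-- a time-like vector with zero time coordinate does not exist -/
lemma sp_nonneg (X : Fin 7 → ℝ) (h0 : X 0 = 0) : 0 ≤ B X X := by
  simp only [B, h0]
  nlinarith [sq_nonneg (X 1), sq_nonneg (X 2), sq_nonneg (X 3), sq_nonneg (X 4), sq_nonneg (X 5),
    sq_nonneg (X 6)]

lemma sp_zero (X : Fin 7 → ℝ) (h0 : X 0 = 0) (hX : B X X ≤ 0) : X = 0 := by
  simp only [B, h0] at hX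
  have h1 : X 1 = 0 := by
    nlinarith [sq_nonneg (X 1), sq_nonneg (X 2), sq_nonneg (X 3), sq_nonneg (X 4), sq_nonneg (X 5),
      sq_nonneg (X 6)]
  have h2 : X 2 = 0 := by
    nlinarith [sq_nonneg (X 1), sq_nonneg (X 2), sq_nonneg (X 3), sq_nonneg (X 4), sq_nonneg (X 5),
      sq_nonneg (X 6)]
  have h3 : X 3 = 0 := by
    nlinarith [sq_nonneg (X 1), sq_nonneg (X 2), sq_nonneg (X 3), sq_nonneg (X 4), sq_nonneg (X 5),
      sq_nonneg (X 6)]
  have h4 : X 4 = 0 := by
    nlinarith [sq_nonneg (X 1), sq_nonneg (X 2), sq_nonneg (X 3), sq_nonneg (X 4), sq_nonneg (X 5),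
      sq_nonneg (X 6)]
  have h5 : X 5 = 0 := by
    nlinarith [sq_nonneg (X 1), sq_nonneg (X 2), sq_nonneg (X 3), sq_nonneg (X 4), sq_nonneg (X 5),
      sq_nonneg (X 6)]
  have h6 : X 6 = 0 := by
    nlinarith [sq_nonneg (X 1), sq_nonneg (X 2), sq_nonneg (X 3), sq_nonneg (X 4), sq_nonneg (X 5),
      sq_nonneg (X 6)]
  funext k
  fin_cases k <;> assumption

/-- a time-like vector `X` with `B X X0 < 0` for a future time-like `X0` is future -/
lemma fut (X X0 : Fin 7 → ℝ) (hX : B X X < 0) (hX0 : B X0 X0 < 0) (h0 : 0 < X0 0)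
    (h : B X X0 < 0) : 0 < X 0 := by
  by_contra hcon
  push Not at hcon
  rcases lt_or_eq_of_le hcon with h1 | h1
  · have h2 := B_neg_of_future X0 (-X) h0 hX0 (by simpa using h1)
      (by rw [B_neg_left, B_neg_right]; linarith)
    rw [B_neg_right, B_comm] at h2
    linarith
  · have := sp_nonneg X h1
    linarith

theorem gram : S_gram := by
  intro ι e he i j hij
  set g := B (e i) (e j) with hg
  have hgs : B (e j) (e i) = g := by rw [B_comm]
  have hi := he.unit i
  have hj := he.unit j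
  rcases le_or_gt g (-1) with h1 | h1
  · exact Or.inr h1
  left
  rcases lt_or_ge g 1 with h2 | h2
  · -- the hyperplanes meet
    obtain ⟨x, hx⟩ := he.interior
    have hxx : B x.1 x.1 = -1 := x.2.1
    set a := B x.1 (e i) with ha
    set b := B x.1 (e j) with hb
    have ha' : B (e i) x.1 = a := by rw [B_comm]
    have hb' : B (e j) x.1 = b := by rw [B_comm]
    have hD : 0 < 1 - g ^ 2 := by nlinarith
    obtain ⟨u, v, hu, hv⟩ : ∃ u v : ℝ, u + g * v = a ∧ g * u + v = b := by
      refine ⟨(a - g * b) / (1 - g ^ 2), (b - g * a) / (1 - g ^ 2), ?_, ?_⟩ <;>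
      · field_simp
        ring
    set X := x.1 - u • e i - v • e j with hX
    have e1 : B X (e i) = 0 := by
      rw [hX, B_sub_left, B_sub_left, B_smul_left, B_smul_left, hi, hgs, ← ha]
      linarith
    have e2 : B X (e j) = 0 := by
      rw [hX, B_sub_left, B_sub_left, B_smul_left, B_smul_left, hj, ← hg, ← hb]
      linarith
    have hq : 0 ≤ u ^ 2 + 2 * g * u * v + v ^ 2 := by
      nlinarith [sq_nonneg (u + g * v), sq_nonneg v]
    have e3 : B X x.1 = -1 - (u ^ 2 + 2 * g * u * v + v ^ 2) := by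
      rw [hX, B_sub_left, B_sub_left, B_smul_left, B_smul_left, ha', hb', hxx, ← hu, ← hv]
      ring
    have e4 : B X X = -1 - (u ^ 2 + 2 * g * u * v + v ^ 2) := by
      have : B X X = B X x.1 - u * B X (e i) - v * B X (e j) := by
        conv_lhs => rw [hX]
        rw [← hX, hX, B_sub_right, B_sub_right, B_smul_right, B_smul_right]
      rw [this, e1, e2, e3]; ring
    have hf : 0 < X 0 := fut X x.1 (by rw [e4]; linarith) (by rw [hxx]; norm_num) x.2.2
      (by rw [e3]; linarith)
    obtain ⟨Y, c, hc, hY⟩ := exists_pt X (by rw [e4]; linarith) hf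
    exact he.right i j hij ⟨Y, by rw [hY, B_smul_left, e1, mul_zero],
      by rw [hY, B_smul_left, e2, mul_zero]⟩
  · exfalso
    obtain ⟨p, hp0, hp⟩ := he.side i
    obtain ⟨q, hq0, hq⟩ := he.side j
    have hp' := hp j hij.symm
    have hq' := hq i hij
    set n := e i - e j with hn
    have hnn : B n n ≤ 0 := by
      rw [hn, B_sub_left, B_sub_right, B_sub_right, hi, hj, hgs]
      linarith
    have k1 : 0 < B p.1 n := by rw [hn, B_sub_right, hp0]; linarith
    have k2 : B q.1 n < 0 := by rw [hn, B_sub_right, hq0]; linarith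
    rcases lt_trichotomy (n 0) 0 with h0 | h0 | h0
    · have := B_neg_of_future q.1 (-n) q.2.2 (by rw [q.2.1]; norm_num) (by simpa using h0)
        (by rw [B_neg_left, B_neg_right]; linarith)
      rw [B_neg_right] at this
      linarith
    · have := sp_zero n h0 hnn
      rw [this, B_zero_right] at k1
      exact lt_irrefl _ k1
    · have := B_neg_of_future p.1 n p.2.2 (by rw [p.2.1]; norm_num) h0 hnn
      linarith

end Pool.Agent.W337.RA
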