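import Pool.Agent.W337.RA.Gram

/-!
# RA-NULL: null direction of an unbounded polytope, and reflections
-/

set_option autoImplicit false
set_option linter.all false

open MeasureTheory Set Filter Topology

namespace Pool.Agent.W337.RA

open Pool.Agent.W575.Hyp6
open Pool.Agent.W438.RA

lemma cont_B (v : Fin 7 → ℝ) : Continuous (fun x : Fin 7 → ℝ => B x v) := by
  unfold B
  fun_prop

lemma cont_BB : Continuous (fun x : Fin 7 → ℝ => B x x) := by
  unfold B
  fun_prop

lemma coord_le (X : Fin 7 → ℝ) (h0 : X 0 = 1) (hX : B X X ≤ 0) (k : Fin 7) : |X k| ≤ 1 := by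
  simp only [B, h0] at hX
  rw [abs_le_one_iff_mul_self_le_one]
  fin_cases k
  · simp [h0]
  all_goals
    show X _ * X _ ≤ 1
    simp only [Fin.mk_one, Fin.reduceFinMk]
    nlinarith [mul_self_nonneg (X 1), mul_self_nonneg (X 2), mul_self_nonneg (X 3),
      mul_self_nonneg (X 4), mul_self_nonneg (X 5), mul_self_nonneg (X 6)]

theorem null : S_null := by
  intro ι _ e h
  choose x hx hR using fun n : ℕ => h (n + 1 : ℝ)
  have hpos : ∀ n, 0 < (x n).1 0 := fun n => (x n).2.2
  set y : ℕ → Fin 7 → ℝ := fun n => ((x n).1 0)⁻¹ • (x n).1 with hy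
  have hy0 : ∀ n, y n 0 = 1 := by
    intro n
    show ((x n).1 0)⁻¹ * (x n).1 0 = 1
    exact inv_mul_cancel₀ (hpos n).ne'
  have hyy : ∀ n, B (y n) (y n) = -(((x n).1 0)⁻¹ * ((x n).1 0)⁻¹) := by
    intro n
    simp only [hy]
    rw [B_smul_left, B_smul_right, (x n).2.1]
    ring
  have hle : ∀ n, B (y n) (y n) ≤ 0 := by
    intro n
    rw [hyy]
    have := mul_self_nonneg (((x n).1 0)⁻¹)
    linarith
  have hcpt : IsCompact (Icc (fun _ : Fin 7 => (-1 : ℝ)) (fun _ => 1)) := isCompact_Icc
  have hmem : ∀ n, y n ∈ Icc (fun _ : Fin 7 => (-1 : ℝ)) (fun _ => 1) := by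
    intro n
    constructor
    · intro k
      exact (abs_le.1 (coord_le (y n) (hy0 n) (hle n) k)).1
    · intro k
      exact (abs_le.1 (coord_le (y n) (hy0 n) (hle n) k)).2
  obtain ⟨a, _, φ, hφ, hlim⟩ := hcpt.tendsto_subseq hmem
  refine ⟨a, ?_, ?_, ?_⟩
  · have h1 : Tendsto (fun n => y (φ n) 0) atTop (𝓝 (a 0)) :=
      ((continuous_apply 0).tendsto a).comp hlim
    have h2 : Tendsto (fun n => y (φ n) 0) atTop (𝓝 1) := by
      simp only [hy0]; exact tendsto_const_nhds
    rw [tendsto_nhds_unique h1 h2]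
    norm_num
  · have h1 : Tendsto (fun n => B (y (φ n)) (y (φ n))) atTop (𝓝 (B a a)) :=
      (cont_BB.tendsto a).comp hlim
    have h3 : Tendsto (fun n => ((x (φ n)).1 0)⁻¹) atTop (𝓝 0) := by
      apply Filter.Tendsto.inv_tendsto_atTop
      refine tendsto_atTop_mono (fun n => ?_) tendsto_natCast_atTop_atTop
      have h4 := hR (φ n)
      have h5 : (n : ℝ) ≤ (φ n : ℝ) := by exact_mod_cast hφ.id_le n
      linarith
    have h2 : Tendsto (fun n => B (y (φ n)) (y (φ n))) atTop (𝓝 0) := by
      simp only [hyy]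
      have := (h3.mul h3).neg
      simpa using this
    exact tendsto_nhds_unique h1 h2
  · intro i
    have h1 : Tendsto (fun n => B (y (φ n)) (e i)) atTop (𝓝 (B a (e i))) :=
      ((cont_B (e i)).tendsto a).comp hlim
    refine le_of_tendsto' h1 fun n => ?_
    simp only [hy]
    rw [B_smul_left]
    exact mul_nonpos_of_nonneg_of_nonpos (inv_nonneg.2 (hpos _).le) (hx (φ n) i)

/-- the reflection in `m` -/
noncomputable def rfl7 (m : Fin 7 → ℝ) : (Fin 7 → ℝ) →ₗ[ℝ] (Fin 7 → ℝ) where
  toFun X := X - (2 * B X m / B m m) • m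
  map_add' X Y := by
    rw [B_add_left, mul_add, add_div, add_smul]
    abel
  map_smul' c X := by
    rw [B_smul_left, RingHom.id_apply, smul_sub, smul_smul]
    congr 2
    ring

lemma rfl7_apply (m X : Fin 7 → ℝ) : rfl7 m X = X - (2 * B X m / B m m) • m := rfl

lemma rfl7_B (m : Fin 7 → ℝ) (hm : 0 < B m m) (X Y : Fin 7 → ℝ) :
    B (rfl7 m X) (rfl7 m Y) = B X Y := by
  have hne := hm.ne'
  rw [rfl7_apply, rfl7_apply, B_sub_left, B_sub_right, B_sub_right, B_smul_left, B_smul_left,
    B_smul_right, B_smul_right, B_comm m Y]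
  field_simp
  ring

lemma B_E0 (X : Fin 7 → ℝ) : B X ![1, 0, 0, 0, 0, 0, 0] = - X 0 := by
  simp [B]

lemma isom_id : Isom LinearMap.id := ⟨fun _ _ => rfl, fun _ _ h => h⟩

theorem refl : S_refl := by
  constructor
  · intro x
    have hxx : B x.1 x.1 = -1 := x.2.1
    have hx0 : 0 < x.1 0 := x.2.2
    set E : Fin 7 → ℝ := ![1, 0, 0, 0, 0, 0, 0] with hE
    have hEE : B E E = -1 := by rw [hE, B_E0]; simp
    have hxE : B x.1 E = - x.1 0 := B_E0 _
    by_cases h : x.1 0 = 1
    · refine ⟨LinearMap.id, isom_id, ?_⟩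
      have h1 : x.1 - E = 0 := by
        refine sp_zero _ ?_ ?_
        · rw [Pi.sub_apply, h, hE]; simp
        · rw [B_sub_left, B_sub_right, B_sub_right, B_comm E, hxx, hEE, hxE, h]; norm_num
      show x.1 = E
      exact sub_eq_zero.1 h1
    · have hgt : 1 < x.1 0 := by
        by_contra hcon
        push Not at hcon
        have hlt : x.1 0 < 1 := lt_of_le_of_ne hcon h
        have : B x.1 x.1 > -1 := by
          simp only [B]
          nlinarith [mul_self_nonneg (x.1 1), mul_self_nonneg (x.1 2), mul_self_nonneg (x.1 3),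
            mul_self_nonneg (x.1 4), mul_self_nonneg (x.1 5), mul_self_nonneg (x.1 6)]
        linarith
      set m := x.1 - E with hm
      have hmm : B m m = 2 * (x.1 0 - 1) := by
        rw [hm, B_sub_left, B_sub_right, B_sub_right, B_comm E, hxx, hEE, hxE]; ring
      have hxm : B x.1 m = x.1 0 - 1 := by
        rw [hm, B_sub_right, hxx, hxE]; ring
      have hpos : 0 < B m m := by rw [hmm]; linarith
      have hLx : rfl7 m x.1 = E := by
        rw [rfl7_apply, hxm, hmm, div_self (by linarith), one_smul, hm]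
        abel
      refine ⟨rfl7 m, ⟨rfl7_B m hpos, ?_⟩, hLx⟩
      intro X hX hX0
      have h1 := B_neg_of_future X x.1 hX0 hX hx0 (by rw [hxx]; norm_num)
      rw [← rfl7_B m hpos, hLx, B_E0] at h1
      linarith
  · intro a ha0 haa
    set N : Fin 7 → ℝ := ![1, 1, 0, 0, 0, 0, 0] with hN
    have hN0 : N 0 = 1 := by simp [hN]
    have hNN : B N N = 0 := by simp [B, hN]
    set m := a - a 0 • N with hm
    have hm0 : m 0 = 0 := by
      rw [hm, Pi.sub_apply, Pi.smul_apply, hN0, smul_eq_mul, mul_one, sub_self]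
    have hmm : B m m = -2 * a 0 * B a N := by
      rw [hm, B_sub_left, B_sub_right, B_sub_right, B_smul_left, B_smul_left, B_smul_right,
        B_smul_right, haa, hNN, B_comm N a]; ring
    have ham : B a m = - a 0 * B a N := by
      rw [hm, B_sub_right, B_smul_right, haa]; ring
    by_cases h : m = 0
    · exact ⟨LinearMap.id, isom_id, sub_eq_zero.1 h⟩
    · have hpos : 0 < B m m := by
        by_contra hcon
        push Not at hcon
        exact h (sp_zero m hm0 hcon)
      refine ⟨rfl7 m, ⟨rfl7_B m hpos, ?_⟩, ?_⟩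
      · intro X _ hX0
        rw [rfl7_apply, Pi.sub_apply, Pi.smul_apply, hm0, smul_zero, sub_zero]
        exact hX0
      · have h1 : 2 * B a m / B m m = 1 := by
          have h2 : 2 * B a m = B m m := by rw [ham, hmm]; ring
          rw [h2, div_self hpos.ne']
        rw [rfl7_apply, h1, one_smul, hm]
        abel

end Pool.Agent.W337.RA
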