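import Pool.Agent.W337.RA.OctA

/-!
# RA-OCT: octant estimate in a box
-/

set_option autoImplicit false
set_option linter.all false

open MeasureTheory Set Filter Topology

namespace Pool.Agent.W337.RA

open Pool.Agent.W438.RA

lemma ioi6 (c : ℝ) (hc : 0 < c) :
    ∫⁻ t in Ioi c, ENNReal.ofReal (1 / t ^ 6) = ENNReal.ofReal (1 / 5 * c ^ (-5 : ℝ)) := by
  have h1 := integral_Ioi_rpow_of_lt (a := -6) (by norm_num) hc
  have h2 := integrableOn_Ioi_rpow_of_lt (a := -6) (by norm_num) hc
  have h3 := ofReal_integral_eq_lintegral_ofReal h2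
    ((ae_restrict_mem measurableSet_Ioi).mono fun t ht => by
      have : 0 < t := lt_trans hc ht
      show (0 : ℝ) ≤ t ^ (-6 : ℝ)
      positivity)
  have h4 : ∫⁻ t in Ioi c, ENNReal.ofReal (1 / t ^ 6) = ∫⁻ t in Ioi c, ENNReal.ofReal (t ^ (-6 : ℝ)) := by
    refine setLIntegral_congr_fun measurableSet_Ioi fun t ht => ?_
    have : 0 < t := lt_trans hc ht
    show ENNReal.ofReal (1 / t ^ 6) = ENNReal.ofReal (t ^ (-6 : ℝ))
    congr 1
    rw [Real.rpow_neg this.le, one_div]
    congr 1
    exact_mod_cast (Real.rpow_natCast t 6).symm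
  rw [h4, ← h3, h1]
  congr 1
  norm_num
  ring

lemma tint (U : ℝ) (T : Set ℝ) (hT : ∀ t, 0 < t → U ≤ t ^ 2 → t ∈ T) :
    ENNReal.ofReal (1 / 5) * F U ≤ ∫⁻ t in T, ENNReal.ofReal (1 / t ^ 6) := by
  have hsub : ∀ c, 0 < c → U ≤ c ^ 2 →
      ENNReal.ofReal (1 / 5 * c ^ (-5 : ℝ)) ≤ ∫⁻ t in T, ENNReal.ofReal (1 / t ^ 6) := by
    intro c hc hU
    rw [← ioi6 c hc]
    refine lintegral_mono_set fun t ht => ?_
    have ht' : c < t := ht
    exact hT t (lt_trans hc ht') (by nlinarith)
  rcases lt_or_ge 0 U with hU | hU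
  · have hs : 0 < Real.sqrt U := Real.sqrt_pos.2 hU
    refine le_trans (le_of_eq ?_) (hsub (Real.sqrt U) hs (by rw [Real.sq_sqrt hU.le]))
    unfold F
    rw [ENNReal.ofReal_rpow_of_pos hU, ← ENNReal.ofReal_mul (by norm_num)]
    congr 2
    rw [Real.sqrt_eq_rpow, ← Real.rpow_mul hU.le]
    norm_num
  · have htop : ∫⁻ t in T, ENNReal.ofReal (1 / t ^ 6) = ⊤ := by
      refine ENNReal.eq_top_of_forall_nnreal_le fun N => ?_
      set c : ℝ := (5 * ((N : ℝ) + 1)) ^ (-(1 / 5) : ℝ) with hc
      have hN : (0 : ℝ) < 5 * ((N : ℝ) + 1) := by positivity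
      have hcpos : 0 < c := Real.rpow_pos_of_pos hN _
      have hc5 : c ^ (-5 : ℝ) = 5 * ((N : ℝ) + 1) := by
        rw [hc, ← Real.rpow_mul hN.le]
        norm_num
      refine le_trans ?_ (hsub c hcpos (by nlinarith [sq_nonneg c]))
      rw [hc5]
      have : (1 : ℝ) / 5 * (5 * ((N : ℝ) + 1)) = (N : ℝ) + 1 := by ring
      rw [this]
      rw [show (N : ENNReal) = ENNReal.ofReal (N : ℝ) by rw [ENNReal.ofReal_coe_nnreal]]
      exact ENNReal.ofReal_le_ofReal (by linarith)
    rw [htop]
    exact le_top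

lemma F_anti {u v : ℝ} (h : u ≤ v) : F v ≤ F u := by
  unfold F
  rw [ENNReal.rpow_neg, ENNReal.rpow_neg, ENNReal.inv_le_inv]
  exact ENNReal.rpow_le_rpow (ENNReal.ofReal_le_ofReal h) (by norm_num)

lemma K_anti {u v : ℝ} (h : u ≤ v) : K v ≤ K u := by
  unfold K
  exact lintegral_mono fun y => F_anti (sub_le_sub_right (max_le_max_right _ h) _)

lemma pair (a b : ℝ) (ha1 : a ≤ 1) (hb1 : b ≤ 1) (hab : a + b ≤ 1) : Kmin ≤ K a + K b := by
  have key : ∀ a b : ℝ, a ≤ b → b ≤ 1 → a + b ≤ 1 → Kmin ≤ K a + K b := by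
    intro a b h1 h2 h3
    rcases le_or_gt a (1 / 8) with h | h
    · refine (min_le_left _ _).trans ?_
      rw [add_comm]
      exact add_le_add (K_anti h) (K_anti h2)
    · refine (min_le_right _ _).trans ?_
      rw [add_comm]
      exact add_le_add (K_anti (by linarith)) (K_anti (by linarith))
  rcases le_total a b with h | h
  · exact key a b h hb1 hab
  · rw [add_comm]; exact key b a h ha1 (by linarith)

/-- the isometry to the octant -/
def phi (l : Fin 5 → ℝ) (κ : Fin 5 → Bool) (y : Fin 5 → ℝ) : Fin 5 → ℝ :=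
  fun k => if κ k then l k - y k else y k

lemma phi_phi (l : Fin 5 → ℝ) (κ : Fin 5 → Bool) : Function.Involutive (phi l κ) := by
  intro y
  funext k
  unfold phi
  by_cases h : κ k = true
  · simp [h]
  · simp [h]

lemma phi_mp (l : Fin 5 → ℝ) (κ : Fin 5 → Bool) : MeasurePreserving (phi l κ) volume volume := by
  have h : ∀ k : Fin 5, MeasurePreserving (fun t : ℝ => if κ k then l k - t else t) volume volume := by
    intro k
    by_cases h : κ k = true
    · simp only [h, if_true]
      exact Measure.measurePreserving_sub_left volume (l k)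
    · simp only [h]
      exact MeasurePreserving.id volume
  exact volume_preserving_pi h

lemma phi_emb (l : Fin 5 → ℝ) (κ : Fin 5 → Bool) : MeasurableEmbedding (phi l κ) :=
  (MeasurableEquiv.ofInvolutive (phi l κ) (phi_phi l κ) (phi_mp l κ).measurable).measurableEmbedding

/-- the half-open cube -/
def cube : Set (Fin 5 → ℝ) := Set.univ.pi fun _ => Ico (0 : ℝ) (1 / 2)

lemma cube_meas : MeasurableSet cube := MeasurableSet.univ_pi fun _ => measurableSet_Ico

lemma K_cube (ρ : ℝ) : K ρ = ∫⁻ y in cube, F (max ρ (M y) - q y) := by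
  unfold K
  refine setLIntegral_congr ?_
  have h := Measure.univ_pi_Ico_ae_eq_Icc (ι := Fin 5) (μ := fun _ => (volume : Measure ℝ))
    (f := 0) (g := fun _ => 1 / 2)
  exact h.symm

lemma mem_cube {y : Fin 5 → ℝ} : y ∈ cube ↔ ∀ k, 0 ≤ y k ∧ y k < 1 / 2 := by
  unfold cube
  simp [Set.mem_pi]

/-- the corner -/
def cor (l : Fin 5 → ℝ) (κ : Fin 5 → Bool) : Fin 5 → ℝ := fun k => if κ k then l k else 0

theorem oct : S_oct := by
  intro ι _ p r l j hr hl hlj hp0 hpl hsep
  classical
  -- radii are at most 1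
  have hr1 : ∀ i, r i ≤ 1 := by
    intro i
    have h1 := hp0 i j
    have h2 := hpl i j
    have h3 := hr i
    rw [hlj] at h2
    rcases h1 with h1 | h1 <;> rcases h2 with h2 | h2 <;> linarith
  -- the radius at a corner
  set ρ : (Fin 5 → Bool) → ℝ := fun κ => if h : ∃ i, p i = cor l κ then (r h.choose) ^ 2 else 0 with hρ
  have hρi : ∀ κ i, p i = cor l κ → ρ κ = r i ^ 2 := by
    intro κ i hi
    have h : ∃ i, p i = cor l κ := ⟨i, hi⟩
    simp only [hρ, dif_pos h]
    have h1 := h.choose_spec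
    by_contra hne
    have hne' : h.choose ≠ i := fun h2 => hne (by rw [h2])
    have h3 := hsep _ _ hne'
    rw [h1, hi] at h3
    simp only [sub_self] at h3
    have := hr h.choose
    have := hr i
    norm_num at h3
    nlinarith
  have hρ0 : ∀ κ, (∀ i, p i ≠ cor l κ) → ρ κ = 0 := by
    intro κ h
    simp only [hρ]
    rw [dif_neg]
    push Not
    exact h
  have hρ1 : ∀ κ, ρ κ ≤ 1 := by
    intro κ
    by_cases h : ∃ i, p i = cor l κ
    · obtain ⟨i, hi⟩ := h
      rw [hρi κ i hi]
      have := hr i; have := hr1 i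
      nlinarith
    · push Not at h
      rw [hρ0 κ h]; norm_num
  -- flipping the coordinate j
  set fl : (Fin 5 → Bool) → (Fin 5 → Bool) := fun κ => Function.update κ j (!(κ j)) with hfl
  have hflinv : Function.Involutive fl := by
    intro κ
    simp only [hfl]
    simp
  have hfl_ne : ∀ κ k, k ≠ j → fl κ k = κ k := by
    intro κ k hk
    simp [hfl, hk]
  have hfl_j : ∀ κ, fl κ j = !(κ j) := by intro κ; simp [hfl]
  have hpair : ∀ κ, ρ κ + ρ (fl κ) ≤ 1 := by
    intro κ
    by_cases h : ∃ i, p i = cor l κ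
    · by_cases h' : ∃ i, p i = cor l (fl κ)
      · obtain ⟨i, hi⟩ := h
        obtain ⟨i', hi'⟩ := h'
        rw [hρi κ i hi, hρi _ i' hi']
        have hd : ∀ k, (p i k - p i' k) ^ 2 = if k = j then 1 else 0 := by
          intro k
          rw [hi, hi']
          unfold cor
          by_cases hk : k = j
          · subst hk
            rw [hfl_j, if_pos rfl, hlj]
            cases κ k <;> simp
          · rw [hfl_ne κ k hk, if_neg hk]
            simp
        have hne : i ≠ i' := by
          rintro rfl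
          have := hd j
          simp at this
        have h1 := hsep i i' hne
        rw [Finset.sum_congr rfl (fun k _ => hd k)] at h1
        simpa using h1
      · push Not at h'
        rw [hρ0 _ h', add_zero]; exact hρ1 κ
    · push Not at h
      rw [hρ0 _ h, zero_add]; exact hρ1 _
  -- the sum over the octants
  set G : (Fin 5 → ℝ) → ENNReal := fun x =>
    ∫⁻ t in {t : ℝ | 0 < t ∧ ∀ i, r i ^ 2 ≤ ∑ k, (x k - p i k) ^ 2 + t ^ 2}, ENNReal.ofReal (1 / t ^ 6)
    with hG
  have hpt : ∀ κ, ∀ y ∈ cube, ENNReal.ofReal (1 / 5) * F (max (ρ κ) (M y) - q y) ≤ G (phi l κ y) := by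
    intro κ y hy
    rw [mem_cube] at hy
    have hy' : ∀ k, 0 ≤ y k ∧ y k ≤ 1 / 2 := fun k => ⟨(hy k).1, (hy k).2.le⟩
    refine tint _ _ fun t ht hU => ⟨ht, fun i => ?_⟩
    set d : Fin 5 → ℝ := fun k => if κ k then l k - p i k else p i k with hd
    have hsq : ∀ k, (phi l κ y k - p i k) ^ 2 = (y k - d k) ^ 2 := by
      intro k
      simp only [phi, hd]
      by_cases hk : κ k = true
      · simp only [hk, if_true]; ring
      · simp only [hk]; rfl
    rw [Finset.sum_congr rfl (fun k _ => hsq k)]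
    by_cases hne : ∃ k, d k ≠ 0
    · have hdd : ∀ k, d k = 0 ∨ r i ≤ d k := by
        intro k
        simp only [hd]
        by_cases hk : κ k = true
        · simp only [hk, if_true]
          rcases hpl i k with h | h
          · left; linarith
          · right; linarith
        · simp only [hk]
          exact hp0 i k
      have h1 := claim y hy' (r i) (hr i) (hr1 i) d hdd hne
      have h2 : M y ≤ max (ρ κ) (M y) := le_max_right _ _
      linarith
    · push Not at hne
      have hpc : p i = cor l κ := by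
        funext k
        have := hne k
        simp only [hd] at this
        unfold cor
        by_cases hk : κ k = true
        · simp only [hk, if_true] at this ⊢; linarith
        · simp only [hk] at this ⊢; exact this
      have h1 := hρi κ i hpc
      have h2 : ρ κ ≤ max (ρ κ) (M y) := le_max_left _ _
      have h3 : ∑ k, (y k - d k) ^ 2 = q y := by
        unfold q
        exact Finset.sum_congr rfl fun k _ => by rw [hne k, sub_zero]
      rw [h3]
      linarith
  -- integral over one octant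
  have hoct : ∀ κ, ENNReal.ofReal (1 / 5) * K (ρ κ) ≤ ∫⁻ x in (phi l κ) ⁻¹' cube, G x := by
    intro κ
    have h1 := (phi_mp l κ).setLIntegral_comp_preimage_emb (phi_emb l κ) (fun x => G (phi l κ x)) cube
    have h2 : ∫⁻ x in (phi l κ) ⁻¹' cube, G (phi l κ (phi l κ x)) = ∫⁻ x in (phi l κ) ⁻¹' cube, G x := by
      refine lintegral_congr fun x => ?_
      rw [phi_phi l κ x]
    rw [h2] at h1
    rw [h1, K_cube, ← lintegral_const_mul' _ _ ENNReal.ofReal_ne_top]
    exact setLIntegral_mono' cube_meas fun y hy => hpt κ y hy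
  have hdisj : Pairwise (Function.onFun Disjoint (fun κ : Fin 5 → Bool => (phi l κ) ⁻¹' cube)) := by
    intro κ κ' hne
    rw [Function.onFun, Set.disjoint_left]
    intro x hx hx'
    rw [mem_preimage, mem_cube] at hx hx'
    apply hne
    funext k
    have h1 := hx k
    have h2 := hx' k
    have h3 := hl k
    unfold phi at h1 h2
    cases hk : κ k <;> cases hk' : κ' k
    · rfl
    · simp only [hk, hk', if_true] at h1 h2
      simp at h1 h2
      linarith
    · simp only [hk, hk', if_true] at h1 h2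
      simp at h1 h2
      linarith
    · rfl
  have hsubs : (⋃ κ : Fin 5 → Bool, (phi l κ) ⁻¹' cube) ⊆ Icc (0 : Fin 5 → ℝ) l := by
    intro x hx
    obtain ⟨κ, hκ⟩ := mem_iUnion.1 hx
    rw [mem_preimage, mem_cube] at hκ
    constructor
    · intro k
      have h1 := hκ k
      have h3 := hl k
      unfold phi at h1
      show (0 : ℝ) ≤ x k
      cases hk : κ k
      · simp only [hk] at h1; simp at h1; linarith
      · simp only [hk, if_true] at h1; linarith
    · intro k
      have h1 := hκ k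
      have h3 := hl k
      unfold phi at h1
      cases hk : κ k
      · simp only [hk] at h1; simp at h1; linarith
      · simp only [hk, if_true] at h1; linarith
  have hmain : ENNReal.ofReal (1 / 5) * ∑ κ, K (ρ κ) ≤ ∫⁻ x in Icc (0 : Fin 5 → ℝ) l, G x := by
    calc ENNReal.ofReal (1 / 5) * ∑ κ, K (ρ κ) = ∑ κ, ENNReal.ofReal (1 / 5) * K (ρ κ) := by
          rw [Finset.mul_sum]
      _ ≤ ∑ κ, ∫⁻ x in (phi l κ) ⁻¹' cube, G x := Finset.sum_le_sum fun κ _ => hoct κ
      _ = ∫⁻ x in ⋃ κ : Fin 5 → Bool, (phi l κ) ⁻¹' cube, G x := by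
          rw [lintegral_iUnion (fun κ => (phi_mp l κ).measurable cube_meas) hdisj, tsum_fintype]
      _ ≤ _ := lintegral_mono_set hsubs
  have hsum : 16 * Kmin ≤ ∑ κ, K (ρ κ) := by
    have h1 : ∑ κ, K (ρ (fl κ)) = ∑ κ, K (ρ κ) :=
      Equiv.sum_comp (hflinv.toPerm fl) (fun κ => K (ρ κ))
    have h2 : 2 * (16 * Kmin) ≤ 2 * ∑ κ, K (ρ κ) := by
      calc 2 * (16 * Kmin) = ∑ κ : Fin 5 → Bool, Kmin := by
            rw [Finset.sum_const, nsmul_eq_mul, Finset.card_univ, Fintype.card_fun, Fintype.card_bool,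
              Fintype.card_fin, ← mul_assoc]
            norm_num
        _ ≤ ∑ κ, (K (ρ κ) + K (ρ (fl κ))) :=
            Finset.sum_le_sum fun κ _ => pair _ _ (hρ1 _) (hρ1 _) (hpair κ)
        _ = 2 * ∑ κ, K (ρ κ) := by rw [Finset.sum_add_distrib, h1, two_mul]
    exact (ENNReal.mul_le_mul_iff_right (by norm_num) (by norm_num)).1 h2
  calc ENNReal.ofReal (16 / 5) * Kmin = ENNReal.ofReal (1 / 5) * (16 * Kmin) := by
        rw [← mul_assoc]
        congr 1
        rw [show (16 : ENNReal) = ENNReal.ofReal 16 by simp, ← ENNReal.ofReal_mul (by norm_num)]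
        norm_num
    _ ≤ ENNReal.ofReal (1 / 5) * ∑ κ, K (ρ κ) := by gcongr
    _ ≤ _ := hmain

end Pool.Agent.W337.RA
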