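import Pool.Agent.W438.RA.Defs

/-!
# RA-OCT, first part: the elementary inequality
-/

set_option autoImplicit false
set_option linter.all false

open MeasureTheory Set Filter Topology

namespace Pool.Agent.W337.RA

open Pool.Agent.W438.RA

lemma le_M (y : Fin 5 → ℝ) (A : Finset (Fin 5)) : MA y A ≤ M y :=
  Finset.le_sup' (MA y) (Finset.mem_univ A)

lemma two_le_M (y : Fin 5 → ℝ) (k : Fin 5) : 2 * y k ≤ M y := by
  have h := le_M y {k}
  simpa [MA] using h

lemma sq_le_M (y : Fin 5 → ℝ) (A : Finset (Fin 5)) (hA : 2 ≤ A.card) :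
    (∑ i ∈ A, y i) ^ 2 / ((A.card : ℝ) - 1) ≤ M y := by
  have h := le_M y A
  rwa [MA, if_neg (by omega)] at h

/-- the main inequality -/
theorem main_ineq (y : Fin 5 → ℝ) (hy : ∀ k, 0 ≤ y k ∧ y k ≤ 1 / 2) (r : ℝ) (hr : 0 < r)
    (hr1 : r ≤ 1) (d : Fin 5 → ℝ) (hd : ∀ k, d k = 0 ∨ r ≤ d k) (hne : ∃ k, d k ≠ 0) :
    r ^ 2 + ∑ k, d k * (2 * y k - d k) ≤ M y := by
  classical
  set I : Finset (Fin 5) := Finset.univ.filter (fun k => d k ≠ 0) with hI
  have hIne : I.Nonempty := by
    obtain ⟨k, hk⟩ := hne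
    exact ⟨k, by simp [hI, hk]⟩
  have hdI : ∀ k ∈ I, r ≤ d k := by
    intro k hk
    have : d k ≠ 0 := (Finset.mem_filter.1 hk).2
    exact (hd k).resolve_left this
  have hsum : ∑ k, d k * (2 * y k - d k) = ∑ k ∈ I, d k * (2 * y k - d k) := by
    rw [hI, Finset.sum_filter]
    refine Finset.sum_congr rfl fun k _ => ?_
    by_cases h : d k = 0
    · simp [h]
    · simp [h]
  rw [hsum]
  have h1m : (1 : ℝ) ≤ I.card := by exact_mod_cast hIne.card_pos
  have hS0 : 0 ≤ ∑ k ∈ I, y k := Finset.sum_nonneg fun k _ => (hy k).1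
  set S := ∑ k ∈ I, y k with hS
  by_cases ha : ∀ k ∈ I, y k ≤ r
  · -- case (a)
    have hb : ∑ k ∈ I, d k * (2 * y k - d k) ≤ ∑ k ∈ I, (2 * r * y k - r ^ 2) := by
      refine Finset.sum_le_sum fun k hk => ?_
      have h1 := hdI k hk
      have h2 := ha k hk
      nlinarith [mul_nonneg (sub_nonneg.2 h1) (sub_nonneg.2 h2), sq_nonneg (d k - r)]
    rw [Finset.sum_sub_distrib, ← Finset.mul_sum, Finset.sum_const, nsmul_eq_mul, ← hS] at hb
    rcases Nat.lt_or_ge 1 I.card with hc | hc
    · have hM := sq_le_M y I hc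
      have hc' : (2 : ℝ) ≤ I.card := by exact_mod_cast hc
      have hpos : (0 : ℝ) < (I.card : ℝ) - 1 := by linarith
      refine le_trans ?_ hM
      rw [le_div_iff₀ hpos]
      nlinarith [sq_nonneg (S - ((I.card : ℝ) - 1) * r)]
    · have hc1 : I.card = 1 := le_antisymm hc hIne.card_pos
      have hM := le_M y I
      rw [MA, if_pos hc, ← hS] at hM
      rw [hc1] at hb
      push_cast at hb
      nlinarith
  · -- case (b)
    push Not at ha
    obtain ⟨k1, hk1, hk1r⟩ := ha
    obtain ⟨k0, _, hk0⟩ := Finset.exists_max_image (Finset.univ : Finset (Fin 5)) y ⟨0, Finset.mem_univ _⟩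
    have hY : ∀ k, y k ≤ y k0 := fun k => hk0 k (Finset.mem_univ k)
    have hrY : r < y k0 := lt_of_lt_of_le hk1r (hY k1)
    have hY2 : y k0 ≤ 1 / 2 := (hy k0).2
    have hM2 := two_le_M y k0
    set Y := y k0 with hYdef
    have hYpos : 0 < Y := lt_trans hr hrY
    have h4 : 4 * Y ^ 2 ≤ M y := by nlinarith
    -- the bound of one term
    have hcc : ∀ k ∈ I, d k * (2 * y k - d k) ≤ if y k ≤ r then 2 * r * y k - r ^ 2 else y k ^ 2 := by
      intro k hk
      have h1 := hdI k hk
      split_ifs with h2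
      · nlinarith [mul_nonneg (sub_nonneg.2 h1) (sub_nonneg.2 h2), sq_nonneg (d k - r)]
      · nlinarith [sq_nonneg (y k - d k)]
    rcases Nat.lt_or_ge 3 I.card with hc | hc
    · have hc' : (4 : ℝ) ≤ I.card := by exact_mod_cast hc
      have hc5 : I.card ≤ 5 := by
        have := Finset.card_le_univ I
        simpa using this
      have hc5' : (I.card : ℝ) ≤ 5 := by exact_mod_cast hc5
      rcases le_or_gt ((I.card : ℝ) * Y - S) Y with hD | hD
      · -- (b1)
        have hb : ∑ k ∈ I, (d k * (2 * y k - d k)) * Y ≤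
            ∑ k ∈ I, ((2 * Y * y k - Y ^ 2) * Y + (Y ^ 2 - r ^ 2) * (Y - y k)) := by
          refine Finset.sum_le_sum fun k hk => ?_
          have h1 := hcc k hk
          have h2 := hY k
          have h3 := (hy k).1
          have key : (if y k ≤ r then 2 * r * y k - r ^ 2 else y k ^ 2) * Y ≤
              (2 * Y * y k - Y ^ 2) * Y + (Y ^ 2 - r ^ 2) * (Y - y k) := by
            split_ifs with h4
            · have : (2 * Y * y k - Y ^ 2) * Y + (Y ^ 2 - r ^ 2) * (Y - y k) -
                (2 * r * y k - r ^ 2) * Y = (Y - r) * (Y * y k - r * y k) := by ring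
              have h5 : 0 ≤ (Y - r) * (Y * y k - r * y k) := by
                apply mul_nonneg (by linarith)
                nlinarith
              linarith
            · have : (2 * Y * y k - Y ^ 2) * Y + (Y ^ 2 - r ^ 2) * (Y - y k) -
                y k ^ 2 * Y = (Y - y k) * (Y * y k - r ^ 2) := by ring
              have h5 : 0 ≤ (Y - y k) * (Y * y k - r ^ 2) := by
                apply mul_nonneg (by linarith)
                push Not at h4
                nlinarith
              linarith
          exact (mul_le_mul_of_nonneg_right h1 hYpos.le).trans key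
        have e1 : ∑ k ∈ I, (d k * (2 * y k - d k)) * Y = (∑ k ∈ I, d k * (2 * y k - d k)) * Y := by
          rw [Finset.sum_mul]
        have e2 : ∑ k ∈ I, ((2 * Y * y k - Y ^ 2) * Y + (Y ^ 2 - r ^ 2) * (Y - y k)) =
            (2 * Y * S - I.card * Y ^ 2) * Y + (Y ^ 2 - r ^ 2) * (I.card * Y - S) := by
          rw [Finset.sum_add_distrib, ← Finset.sum_mul, ← Finset.mul_sum, Finset.sum_sub_distrib,
            Finset.sum_sub_distrib, ← Finset.mul_sum, Finset.sum_const, Finset.sum_const,
            nsmul_eq_mul, nsmul_eq_mul, ← hS]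
        rw [e1, e2] at hb
        have e3 : (Y ^ 2 - r ^ 2) * (I.card * Y - S) ≤ (Y ^ 2 - r ^ 2) * Y :=
          mul_le_mul_of_nonneg_left hD (by nlinarith)
        have e4 : (∑ k ∈ I, d k * (2 * y k - d k)) * Y ≤
            ((2 * Y * S - I.card * Y ^ 2) + (Y ^ 2 - r ^ 2)) * Y := by linarith
        have e5 := le_of_mul_le_mul_right e4 hYpos
        have hM := sq_le_M y I (by omega)
        have hpos : (0 : ℝ) < (I.card : ℝ) - 1 := by linarith
        refine le_trans ?_ hM
        rw [le_div_iff₀ hpos]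
        nlinarith [sq_nonneg (S - ((I.card : ℝ) - 1) * Y)]
      · -- (b2)
        refine le_trans ?_ h4
        have hS1 : ∀ α β : ℝ, ∑ k ∈ I, (Y ^ 2 - α * (Y - y k)) = I.card * Y ^ 2 - α * (I.card * Y - S) := by
          intro α β
          rw [Finset.sum_sub_distrib, ← Finset.mul_sum, Finset.sum_sub_distrib, Finset.sum_const,
            Finset.sum_const, nsmul_eq_mul, nsmul_eq_mul, ← hS]
        have hbase : ∀ k ∈ I, d k * (2 * y k - d k) ≤ Y ^ 2 - 2 * r * (Y - y k) := by
          intro k hk
          refine (hcc k hk).trans ?_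
          have h2 := hY k
          split_ifs with h3
          · nlinarith [sq_nonneg (Y - r)]
          · push Not at h3
            nlinarith
        rcases Nat.lt_or_ge 4 I.card with hc4 | hc4
        · have hcE : I.card = 5 := le_antisymm hc5 hc4
          have hcE' : (I.card : ℝ) = 5 := by exact_mod_cast hcE
          by_cases hex : ∃ k2 ∈ I, y k2 ≤ r
          · obtain ⟨k2, hk2, hk2r⟩ := hex
            have h5 : ∑ k ∈ I.erase k2, d k * (2 * y k - d k) ≤
                ∑ k ∈ I.erase k2, (Y ^ 2 - 2 * r * (Y - y k)) :=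
              Finset.sum_le_sum fun k hk => hbase k (Finset.mem_of_mem_erase hk)
            have h6 : d k2 * (2 * y k2 - d k2) ≤ (Y ^ 2 - 2 * r * (Y - y k2)) - (Y - r) ^ 2 := by
              have := hcc k2 hk2
              rw [if_pos hk2r] at this
              nlinarith
            have h7 := Finset.add_sum_erase I (fun k => d k * (2 * y k - d k)) hk2
            have h8 := Finset.add_sum_erase I (fun k => Y ^ 2 - 2 * r * (Y - y k)) hk2
            rw [hS1 (2 * r) 0] at h8
            rw [hcE'] at h8 hD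
            nlinarith
          · push Not at hex
            have h5 : ∑ k ∈ I, d k * (2 * y k - d k) ≤ ∑ k ∈ I, (Y ^ 2 - (Y + r) * (Y - y k)) := by
              refine Finset.sum_le_sum fun k hk => ?_
              refine (hcc k hk).trans ?_
              have h6 := hex k hk
              rw [if_neg (by linarith)]
              have h2 := hY k
              nlinarith
            rw [hS1 (Y + r) 0, hcE'] at h5
            rw [hcE'] at hD
            nlinarith
        · have hcE : I.card = 4 := le_antisymm hc4 hc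
          have hcE' : (I.card : ℝ) = 4 := by exact_mod_cast hcE
          have h5 : ∑ k ∈ I, d k * (2 * y k - d k) ≤ ∑ k ∈ I, (Y ^ 2 - 2 * r * (Y - y k)) :=
            Finset.sum_le_sum hbase
          rw [hS1 (2 * r) 0, hcE'] at h5
          rw [hcE'] at hD
          nlinarith
    · -- m ≤ 3
      refine le_trans ?_ h4
      have hc' : (I.card : ℝ) ≤ 3 := by exact_mod_cast hc
      have h5 : ∑ k ∈ I, d k * (2 * y k - d k) ≤ ∑ k ∈ I, Y ^ 2 := by
        refine Finset.sum_le_sum fun k hk => ?_
        have h2 := hY k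
        have h3 := (hy k).1
        nlinarith [sq_nonneg (y k - d k)]
      rw [Finset.sum_const, nsmul_eq_mul] at h5
      nlinarith [sq_nonneg Y]

/-- the claim -/
theorem claim (y : Fin 5 → ℝ) (hy : ∀ k, 0 ≤ y k ∧ y k ≤ 1 / 2) (r : ℝ) (hr : 0 < r)
    (hr1 : r ≤ 1) (d : Fin 5 → ℝ) (hd : ∀ k, d k = 0 ∨ r ≤ d k) (hne : ∃ k, d k ≠ 0) :
    r ^ 2 - ∑ k, (y k - d k) ^ 2 ≤ M y - q y := by
  have h := main_ineq y hy r hr hr1 d hd hne
  have e : ∑ k, (y k - d k) ^ 2 = q y - ∑ k, d k * (2 * y k - d k) := by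
    unfold q
    rw [← Finset.sum_sub_distrib]
    exact Finset.sum_congr rfl fun k _ => by ring
  rw [e]
  linarith

end Pool.Agent.W337.RA
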