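import Pool.Agent.W438.RA.Defs

/-!
# RA-ORT: volume of an orthant of the unit ball of `ℝ⁶`
-/

set_option autoImplicit false
set_option linter.all false

open MeasureTheory Set Filter Topology

namespace Pool.Agent.W337.RA

open Pool.Agent.W438.RA

/-- dot product -/
def dt (x y : Fin 6 → ℝ) : ℝ := ∑ k, x k * y k

lemma dt_comm (x y : Fin 6 → ℝ) : dt x y = dt y x := by
  unfold dt; exact Finset.sum_congr rfl fun k _ => mul_comm _ _

lemma dt_add (x y z : Fin 6 → ℝ) : dt x (y + z) = dt x y + dt x z := by
  unfold dt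
  rw [← Finset.sum_add_distrib]
  exact Finset.sum_congr rfl fun k _ => by rw [Pi.add_apply]; ring

lemma dt_sub (x y z : Fin 6 → ℝ) : dt x (y - z) = dt x y - dt x z := by
  unfold dt
  rw [← Finset.sum_sub_distrib]
  exact Finset.sum_congr rfl fun k _ => by rw [Pi.sub_apply]; ring

lemma dt_smul (c : ℝ) (x y : Fin 6 → ℝ) : dt x (c • y) = c * dt x y := by
  unfold dt
  rw [Finset.mul_sum]
  exact Finset.sum_congr rfl fun k _ => by rw [Pi.smul_apply, smul_eq_mul]; ring

/-- the linear functional -/
def dtL (n : Fin 6 → ℝ) : (Fin 6 → ℝ) →ₗ[ℝ] ℝ where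
  toFun z := dt n z
  map_add' := dt_add n
  map_smul' c z := dt_smul c n z

/-- the reflection -/
def rf (n : Fin 6 → ℝ) : (Fin 6 → ℝ) →ₗ[ℝ] (Fin 6 → ℝ) where
  toFun z := z - (2 * dt n z) • n
  map_add' x y := by
    rw [dt_add, mul_add, add_smul]
    abel
  map_smul' c x := by
    rw [dt_smul, RingHom.id_apply, smul_sub, smul_smul]
    congr 2
    ring

lemma rf_apply (n z : Fin 6 → ℝ) : rf n z = z - (2 * dt n z) • n := rfl

lemma dt_rf (n m z : Fin 6 → ℝ) : dt m (rf n z) = dt m z - 2 * dt n z * dt m n := by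
  rw [rf_apply, dt_sub, dt_smul]

lemma rf_rf (n : Fin 6 → ℝ) (hn : dt n n = 1) : rf n ∘ₗ rf n = LinearMap.id := by
  ext1 k
  ext1
  show rf n (rf n _) = _
  rw [rf_apply n (rf n _), dt_rf, hn, rf_apply]
  module

lemma det_rf (n : Fin 6 → ℝ) (hn : dt n n = 1) : |(LinearMap.det (rf n))⁻¹| = 1 := by
  have h : LinearMap.det (rf n) * LinearMap.det (rf n) = 1 := by
    rw [← LinearMap.det_comp, rf_rf n hn, LinearMap.det_id]
  have h1 : |LinearMap.det (rf n)| = 1 := by
    rcases mul_self_eq_one_iff.1 h with h | h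
    · rw [h]; simp
    · rw [h]; simp
  rw [abs_inv, h1, inv_one]

lemma ball6 : volume {z : Fin 6 → ℝ | ∑ k, z k ^ 2 < 1} = ENNReal.ofReal (Real.pi ^ 3 / 6) := by
  have h1 : {z : Fin 6 → ℝ | ∑ k, z k ^ 2 < 1} =
      (WithLp.toLp 2 : (Fin 6 → ℝ) → EuclideanSpace ℝ (Fin 6)) ⁻¹'
        (Metric.ball (0 : EuclideanSpace ℝ (Fin 6)) 1) := by
    ext z
    rw [mem_preimage, mem_ball_zero_iff, EuclideanSpace.norm_eq]
    have : ∑ k, ‖(WithLp.toLp 2 z : EuclideanSpace ℝ (Fin 6)) k‖ ^ 2 = ∑ k, z k ^ 2 := by
      refine Finset.sum_congr rfl fun k _ => ?_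
      rw [Real.norm_eq_abs, sq_abs]
    rw [this, Real.sqrt_lt' one_pos, one_pow]
    rfl
  rw [h1, (PiLp.volume_preserving_toLp (Fin 6)).measure_preimage
      (Metric.isOpen_ball.measurableSet.nullMeasurableSet),
    InnerProductSpace.volume_ball_of_dim_even (k := 3) (by simp)]
  simp [Nat.factorial]

lemma half (n : Fin 6 → ℝ) (hn : dt n n = 1) (A : Set (Fin 6 → ℝ)) (hA : MeasurableSet A)
    (hr : ∀ z, rf n z ∈ A ↔ z ∈ A) : 2 * volume (A ∩ {z | 0 < dt n z}) = volume A := by
  have hc : Continuous (fun z => dt n z) := by unfold dt; fun_prop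
  have m1 : MeasurableSet {z | 0 < dt n z} := measurableSet_lt measurable_const hc.measurable
  have m2 : MeasurableSet {z | dt n z < 0} := measurableSet_lt hc.measurable measurable_const
  have e1 : volume (A ∩ {z | dt n z < 0}) = volume (A ∩ {z | 0 < dt n z}) := by
    have h := Measure.addHaar_preimage_linearMap (volume : Measure (Fin 6 → ℝ)) (f := rf n)
      (by
        intro h0
        have := det_rf n hn
        rw [h0] at this
        simp at this) (A ∩ {z | 0 < dt n z})
    rw [det_rf n hn, ENNReal.ofReal_one, one_mul] at h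
    rw [← h]
    congr 1
    ext z
    simp only [mem_inter_iff, mem_setOf_eq, mem_preimage, hr z, dt_rf, hn]
    constructor
    · rintro ⟨h1, h2⟩
      exact ⟨h1, by linarith⟩
    · rintro ⟨h1, h2⟩
      exact ⟨h1, by linarith⟩
  have e0 : volume {z | dt n z = 0} = 0 := by
    have h := Measure.addHaar_submodule (volume : Measure (Fin 6 → ℝ)) (LinearMap.ker (dtL n)) (by
      intro h
      have : n ∈ LinearMap.ker (dtL n) := by rw [h]; trivial
      rw [LinearMap.mem_ker] at this
      have h2 : dt n n = 0 := this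
      rw [hn] at h2
      norm_num at h2)
    exact h
  have hsplit : volume A = volume (A ∩ {z | 0 < dt n z}) + volume (A ∩ {z | dt n z < 0}) := by
    have h1 := measure_inter_add_diff (μ := volume) A m1
    rw [← h1]
    congr 1
    have h2 := measure_inter_add_diff (μ := volume) (A \ {z | 0 < dt n z}) m2
    have h3 : volume ((A \ {z | 0 < dt n z}) \ {z | dt n z < 0}) = 0 := by
      refine measure_mono_null ?_ e0
      rintro z ⟨⟨_, h4⟩, h5⟩
      simp only [mem_setOf_eq, not_lt] at h4 h5 ⊢
      exact le_antisymm h4 h5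
    rw [h3, add_zero] at h2
    rw [← h2]
    congr 1
    ext z
    simp only [mem_inter_iff, mem_diff, mem_setOf_eq, not_lt]
    constructor
    · rintro ⟨⟨h4, _⟩, h5⟩; exact ⟨h4, h5⟩
    · rintro ⟨h4, h5⟩; exact ⟨⟨h4, h5.le⟩, h5⟩
  rw [hsplit, e1, two_mul]

theorem ort : S_ort := by
  intro κ _ n h1 h2
  classical
  have hn : ∀ i, dt (n i) (n i) = 1 := by
    intro i
    rw [← h1 i]
    exact Finset.sum_congr rfl fun k _ => by ring
  have hnm : ∀ i i', i ≠ i' → dt (n i) (n i') = 0 := h2
  constructor
  · have hli : LinearIndependent ℝ n := by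
      rw [linearIndependent_iff']
      intro s g hg i hi
      have h3 := congrArg (dtL (n i)) hg
      rw [map_sum, map_zero] at h3
      rw [Finset.sum_eq_single i] at h3
      · rw [map_smul, smul_eq_mul] at h3
        have : dtL (n i) (n i) = 1 := hn i
        rw [this, mul_one] at h3
        exact h3
      · intro j _ hj
        rw [map_smul]
        have : dtL (n i) (n j) = 0 := hnm i j hj.symm
        rw [this, smul_zero]
      · intro h; exact absurd hi h
    have := hli.fintype_card_le_finrank
    simpa using this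
  · have key : ∀ s : Finset κ, volume {z : Fin 6 → ℝ | (∀ i ∈ s, 0 < dt (n i) z) ∧ ∑ k, z k ^ 2 < 1} =
        ENNReal.ofReal (Real.pi ^ 3 / 6 / 2 ^ s.card) := by
      intro s
      induction s using Finset.induction_on with
      | empty => simp [ball6]
      | insert i s hi ih =>
        set A : Set (Fin 6 → ℝ) := {z | (∀ i ∈ s, 0 < dt (n i) z) ∧ ∑ k, z k ^ 2 < 1} with hA
        have hAm : MeasurableSet A := by
          have e : A = (⋂ i ∈ s, {z | 0 < dt (n i) z}) ∩ {z | ∑ k, z k ^ 2 < 1} := by
            ext z; simp [hA]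
          rw [e]
          refine MeasurableSet.inter ?_ ?_
          · refine Finset.measurableSet_biInter _ fun i _ => ?_
            have hc : Continuous (fun z => dt (n i) z) := by unfold dt; fun_prop
            exact measurableSet_lt measurable_const hc.measurable
          · have hc : Continuous (fun z : Fin 6 → ℝ => ∑ k, z k ^ 2) := by fun_prop
            exact measurableSet_lt hc.measurable measurable_const
        have hsq : ∀ z : Fin 6 → ℝ, ∑ k, z k ^ 2 = dt z z := fun z =>
          Finset.sum_congr rfl fun k _ => by ring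
        have hr : ∀ z, rf (n i) z ∈ A ↔ z ∈ A := by
          intro z
          have e1 : ∀ j ∈ s, dt (n j) (rf (n i) z) = dt (n j) z := by
            intro j hj
            rw [dt_rf, hnm j i (fun h => hi (h ▸ hj))]
            ring
          have e2 : ∑ k, (rf (n i) z) k ^ 2 = ∑ k, z k ^ 2 := by
            rw [hsq, hsq, dt_rf, dt_comm (rf (n i) z) z, dt_rf, dt_comm (rf (n i) z) (n i), dt_rf, hn,
              dt_comm z (n i)]
            ring
          simp only [hA, mem_setOf_eq, e2]
          constructor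
          · rintro ⟨h3, h4⟩
            exact ⟨fun j hj => by rw [← e1 j hj]; exact h3 j hj, h4⟩
          · rintro ⟨h3, h4⟩
            exact ⟨fun j hj => by rw [e1 j hj]; exact h3 j hj, h4⟩
        have hh := half (n i) (hn i) A hAm hr
        rw [ih] at hh
        have e3 : {z : Fin 6 → ℝ | (∀ j ∈ insert i s, 0 < dt (n j) z) ∧ ∑ k, z k ^ 2 < 1} =
            A ∩ {z | 0 < dt (n i) z} := by
          ext z
          simp only [hA, mem_setOf_eq, mem_inter_iff, Finset.forall_mem_insert]
          tauto
        rw [e3, Finset.card_insert_of_notMem hi]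
        have h2' : (2 : ENNReal) ≠ 0 := by norm_num
        have h2'' : (2 : ENNReal) ≠ ⊤ := by norm_num
        have e4 : ENNReal.ofReal (Real.pi ^ 3 / 6 / 2 ^ s.card) =
            2 * ENNReal.ofReal (Real.pi ^ 3 / 6 / 2 ^ (s.card + 1)) := by
          rw [show (2 : ENNReal) = ENNReal.ofReal 2 by simp, ← ENNReal.ofReal_mul (by norm_num)]
          congr 1
          field_simp
          ring
        rw [e4] at hh
        exact (ENNReal.mul_right_inj h2' h2'').1 hh
    have h3 := key Finset.univ
    simp only [Finset.mem_univ, forall_const] at h3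
    exact h3

end Pool.Agent.W337.RA
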